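import Pool.Agent.Run7.h151.WT.Mean

set_option autoImplicit false

/-!
# The number of large coefficients
-/

namespace Run7.h151.WT

open Finset Filter Topology

/-- the constant in the count -/
noncomputable def cst (B η : ℝ) : ℝ := B * 2 ^ ((1 : ℝ) / 2 + 2 * η) / (1 - 2 ^ (-(1 - 2 * η)))

theorem two_pos_aux {η : ℝ} (hη1 : η < 1 / 2) : (2 : ℝ) ^ (-(1 - 2 * η)) < 1 :=
  Real.rpow_lt_one_of_one_lt_of_neg (by norm_num) (by linarith)

theorem count_nat {u : ℕ → ℝ} {B : ℝ}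
    (hB : ∀ X : ℕ, 1 ≤ X → ∑ n ∈ range (X + 1), u n ^ 2 ≤ B * (X : ℝ) ^ ((3 : ℝ) / 2)) {η : ℝ}
    (hη : 0 ≤ η) (hη1 : η < 1 / 2) (X : ℕ) :
    ((((Icc 1 X).filter (fun t : ℕ => (t : ℝ) ^ ((1 : ℝ) / 4 + η) < u t)).card : ℕ) : ℝ) ≤
      cst B η * (X : ℝ) ^ (1 - 2 * η) := by
  have hB0 : 0 ≤ B := by
    have h1 := hB 1 le_rfl
    have h2 : 0 ≤ ∑ n ∈ range (1 + 1), u n ^ 2 := Finset.sum_nonneg fun n _ => sq_nonneg _
    simpa using h2.trans h1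
  have h2s := two_pos_aux hη1
  have hden : 0 < 1 - (2 : ℝ) ^ (-(1 - 2 * η)) := by linarith
  induction X using Nat.strong_induction_on with
  | _ X ih =>
    rcases Nat.eq_zero_or_pos X with rfl | hX
    · simp only [Nat.cast_zero]
      rw [Real.zero_rpow (by linarith)]
      simp
    have hX0 : (0 : ℝ) < X := by exact_mod_cast hX
    have hsplit : (Icc 1 X).filter (fun t : ℕ => (t : ℝ) ^ ((1 : ℝ) / 4 + η) < u t) ⊆
        (Icc 1 (X / 2)).filter (fun t : ℕ => (t : ℝ) ^ ((1 : ℝ) / 4 + η) < u t) ∪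
        (Ioc (X / 2) X).filter (fun t : ℕ => (t : ℝ) ^ ((1 : ℝ) / 4 + η) < u t) := by
      intro t ht
      rw [mem_filter, mem_Icc] at ht
      rw [mem_union, mem_filter, mem_filter, mem_Icc, mem_Ioc]
      rcases le_or_gt t (X / 2) with h | h
      · exact Or.inl ⟨⟨ht.1.1, h⟩, ht.2⟩
      · exact Or.inr ⟨⟨h, ht.1.2⟩, ht.2⟩
    have hupper : (((Ioc (X / 2) X).filter (fun t : ℕ => (t : ℝ) ^ ((1 : ℝ) / 4 + η) < u t)).card : ℝ) ≤
        B * 2 ^ ((1 : ℝ) / 2 + 2 * η) * (X : ℝ) ^ (1 - 2 * η) := by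
      have h1 : ∀ t ∈ (Ioc (X / 2) X).filter (fun t : ℕ => (t : ℝ) ^ ((1 : ℝ) / 4 + η) < u t),
          (((X : ℝ) / 2) ^ ((1 : ℝ) / 4 + η)) ^ 2 ≤ u t ^ 2 := by
        intro t ht
        rw [mem_filter, mem_Ioc] at ht
        have ht0 : (X : ℝ) / 2 ≤ t := by
          have : X ≤ 2 * t := by omega
          have h : (X : ℝ) ≤ 2 * t := by exact_mod_cast this
          linarith
        have h3 : ((X : ℝ) / 2) ^ ((1 : ℝ) / 4 + η) ≤ (t : ℝ) ^ ((1 : ℝ) / 4 + η) :=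
          Real.rpow_le_rpow (by positivity) ht0 (by linarith)
        exact pow_le_pow_left₀ (by positivity) (h3.trans ht.2.le) 2
      have h2 : (((Ioc (X / 2) X).filter (fun t : ℕ => (t : ℝ) ^ ((1 : ℝ) / 4 + η) < u t)).card : ℝ) *
          (((X : ℝ) / 2) ^ ((1 : ℝ) / 4 + η)) ^ 2 ≤ B * (X : ℝ) ^ ((3 : ℝ) / 2) := by
        refine le_trans ?_ (hB X hX)
        rw [← nsmul_eq_mul, ← Finset.sum_const]
        refine (Finset.sum_le_sum h1).trans ?_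
        refine Finset.sum_le_sum_of_subset_of_nonneg ?_ fun _ _ _ => sq_nonneg _
        intro t ht
        rw [mem_filter, mem_Ioc] at ht
        rw [mem_range]
        omega
      have h4 : (((X : ℝ) / 2) ^ ((1 : ℝ) / 4 + η)) ^ 2 =
          (X : ℝ) ^ ((1 : ℝ) / 2 + 2 * η) / 2 ^ ((1 : ℝ) / 2 + 2 * η) := by
        rw [← Real.rpow_natCast, ← Real.rpow_mul (by positivity), Real.div_rpow hX0.le (by norm_num)]
        have : ((1 : ℝ) / 4 + η) * ((2 : ℕ) : ℝ) = (1 : ℝ) / 2 + 2 * η := by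
          push_cast
          ring
        rw [this]
      rw [h4] at h2
      have h5 : (X : ℝ) ^ ((3 : ℝ) / 2) = (X : ℝ) ^ (1 - 2 * η) * (X : ℝ) ^ ((1 : ℝ) / 2 + 2 * η) := by
        rw [← Real.rpow_add hX0]
        congr 1
        ring
      rw [h5] at h2
      have h7 : (0 : ℝ) < 2 ^ ((1 : ℝ) / 2 + 2 * η) := Real.rpow_pos_of_pos (by norm_num) _
      have h8 : (0 : ℝ) < (X : ℝ) ^ ((1 : ℝ) / 2 + 2 * η) := Real.rpow_pos_of_pos hX0 _
      rw [mul_div_assoc', div_le_iff₀ h7] at h2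
      have h9 : (((Ioc (X / 2) X).filter (fun t : ℕ => (t : ℝ) ^ ((1 : ℝ) / 4 + η) < u t)).card : ℝ) *
          (X : ℝ) ^ ((1 : ℝ) / 2 + 2 * η) ≤
          (B * 2 ^ ((1 : ℝ) / 2 + 2 * η) * (X : ℝ) ^ (1 - 2 * η)) * (X : ℝ) ^ ((1 : ℝ) / 2 + 2 * η) := by
        refine h2.trans (le_of_eq ?_)
        ring
      exact le_of_mul_le_mul_right h9 h8
    have hlow := ih (X / 2) (by omega)
    have hcst : 0 ≤ cst B η := by
      unfold cst
      positivity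
    have hlow2 : cst B η * ((X / 2 : ℕ) : ℝ) ^ (1 - 2 * η) ≤
        cst B η * (2 ^ (-(1 - 2 * η)) * (X : ℝ) ^ (1 - 2 * η)) := by
      apply mul_le_mul_of_nonneg_left _ hcst
      have h1 : ((X / 2 : ℕ) : ℝ) ≤ (X : ℝ) / 2 := Nat.cast_div_le
      calc ((X / 2 : ℕ) : ℝ) ^ (1 - 2 * η) ≤ ((X : ℝ) / 2) ^ (1 - 2 * η) :=
            Real.rpow_le_rpow (by positivity) h1 (by linarith)
        _ = 2 ^ (-(1 - 2 * η)) * (X : ℝ) ^ (1 - 2 * η) := by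
            rw [Real.div_rpow hX0.le (by norm_num), Real.rpow_neg (by norm_num)]
            ring
    have hcard : ((((Icc 1 X).filter (fun t : ℕ => (t : ℝ) ^ ((1 : ℝ) / 4 + η) < u t)).card : ℕ) : ℝ) ≤
        cst B η * ((X / 2 : ℕ) : ℝ) ^ (1 - 2 * η) + B * 2 ^ ((1 : ℝ) / 2 + 2 * η) * (X : ℝ) ^ (1 - 2 * η) := by
      refine le_trans ?_ (add_le_add hlow hupper)
      exact_mod_cast (card_le_card hsplit).trans (card_union_le _ _)
    refine hcard.trans ((add_le_add_left hlow2 _).trans (le_of_eq ?_))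
    have hc : cst B η * (1 - 2 ^ (-(1 - 2 * η))) = B * 2 ^ ((1 : ℝ) / 2 + 2 * η) := by
      unfold cst
      field_simp
    rw [← hc]
    ring

/-- the form used by the orbit tool -/
theorem count_real {u : ℕ → ℝ} {B : ℝ}
    (hB : ∀ X : ℕ, 1 ≤ X → ∑ n ∈ range (X + 1), u n ^ 2 ≤ B * (X : ℝ) ^ ((3 : ℝ) / 2)) {η : ℝ}
    (hη : 0 ≤ η) (hη1 : η < 1 / 2) (X : ℝ) (hX : 1 ≤ X) :
    {t : ℕ | t ∈ {t : ℕ | 1 ≤ t ∧ (t : ℝ) ^ ((1 : ℝ) / 4 + η) < u t} ∧ (t : ℝ) ≤ X}.Finite ∧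
    ({t : ℕ | t ∈ {t : ℕ | 1 ≤ t ∧ (t : ℝ) ^ ((1 : ℝ) / 4 + η) < u t} ∧ (t : ℝ) ≤ X}.ncard : ℝ) ≤
      cst B η * X ^ (1 - 2 * η) := by
  have hB0 : 0 ≤ B := by
    have h1 := hB 1 le_rfl
    have h2 : 0 ≤ ∑ n ∈ range (1 + 1), u n ^ 2 := Finset.sum_nonneg fun n _ => sq_nonneg _
    simpa using h2.trans h1
  have h2s := two_pos_aux hη1
  have hden : 0 < 1 - (2 : ℝ) ^ (-(1 - 2 * η)) := by linarith
  have hcst : 0 ≤ cst B η := by
    unfold cst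
    positivity
  have e : {t : ℕ | t ∈ {t : ℕ | 1 ≤ t ∧ (t : ℝ) ^ ((1 : ℝ) / 4 + η) < u t} ∧ (t : ℝ) ≤ X} =
      ((Icc 1 ⌊X⌋₊).filter (fun t : ℕ => (t : ℝ) ^ ((1 : ℝ) / 4 + η) < u t) : Finset ℕ) := by
    ext t
    rw [Finset.coe_filter]
    simp only [Set.mem_ofPred_eq, mem_Icc]
    rw [← Nat.le_floor_iff (by linarith)]
    tauto
  rw [e]
  refine ⟨Finset.finite_toSet _, ?_⟩
  rw [Set.ncard_coe_finset]
  refine (count_nat hB hη hη1 _).trans ?_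
  exact mul_le_mul_of_nonneg_left
    (Real.rpow_le_rpow (Nat.cast_nonneg _) (Nat.floor_le (by linarith)) (by linarith)) hcst

end Run7.h151.WT
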