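import Mathlib

set_option autoImplicit false

/-!
# Cusp forms of weight 3/2: the mean square of the coefficients and the number of large coefficients
-/

namespace Run7.h151.WT

open Finset Filter Topology

/-- The theta function `Σ_{n ∈ ℤ} e(n² z)`. -/
noncomputable def theta (z : ℂ) : ℂ :=
  ∑' n : ℤ, Complex.exp (2 * Real.pi * Complex.I * (n : ℂ) ^ 2 * z)

/-- Cusp forms of weight `3/2` on `Γ₀(N)` with character `χ` in Shimura's normalisation: `f` is
holomorphic on the upper half plane, `f(γ z) = χ(d) j(γ, z)³ f(z)` with `j(γ, z) = θ(γ z) / θ(z)`, and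
`y^(3/4) |f(z)|` is bounded (for these functions this means that `f` vanishes at all cusps). -/
structure IsCuspForm (N : ℕ) (χ : DirichletCharacter ℂ N) (f : ℂ → ℂ) : Prop where
  holo : DifferentiableOn ℂ f {z | 0 < z.im}
  transf : ∀ a b c d : ℤ, a * d - b * c = 1 → (N : ℤ) ∣ c → ∀ z : ℂ, 0 < z.im →
    theta z ^ 3 * f ((a * z + b) / (c * z + d)) =
      χ (d : ZMod N) * theta ((a * z + b) / (c * z + d)) ^ 3 * f z
  bounded : ∃ C : ℝ, ∀ z : ℂ, 0 < z.im → z.im ^ ((3 : ℝ) / 4) * ‖f z‖ ≤ C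

/-- `f(z) = Σ_n a(n) e(n z)` on the upper half plane. -/
def Expansion (f : ℂ → ℂ) (a : ℕ → ℂ) : Prop :=
  ∀ z : ℂ, 0 < z.im → HasSum (fun n : ℕ => a n * Complex.exp (2 * Real.pi * Complex.I * n * z)) (f z)

theorem parseval_le (c : ℕ → ℂ) (hc : Summable fun n => ‖c n‖) (M : ℝ)
    (h : ∀ z : ℂ, ‖z‖ = 1 → ‖∑' n, c n * z ^ n‖ ≤ M) (N : ℕ) :
    ∑ n ∈ range N, ‖c n‖ ^ 2 ≤ M ^ 2 := by
  have hM : 0 ≤ M := (norm_nonneg _).trans (h 1 (by simp))
  have key : ∀ L : ℕ, ∑ n ∈ range L, ‖c n‖ ^ 2 ≤ (M + ∑' n, ‖c (n + L)‖) ^ 2 := by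
    intro L
    set p : Polynomial ℂ := ∑ n ∈ range L, Polynomial.monomial n (c n) with hp
    have heval : ∀ z, p.eval z = ∑ n ∈ range L, c n * z ^ n := by
      intro z
      rw [hp, Polynomial.eval_finsetSum]
      exact Finset.sum_congr rfl fun n _ => Polynomial.eval_monomial
    have hcoeff : ∀ k, p.coeff k = if k ∈ range L then c k else 0 := by
      intro k
      rw [hp, Polynomial.finsetSum_coeff]
      simp only [Polynomial.coeff_monomial]
      rw [Finset.sum_ite_eq']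
    have hsupp : p.support ⊆ range L := by
      intro k hk
      rw [Polynomial.mem_support_iff, hcoeff] at hk
      by_contra h
      rw [if_neg h] at hk
      exact hk rfl
    have h1 : ∑ n ∈ range L, ‖c n‖ ^ 2 = Real.circleAverage (fun z => ‖p.eval z‖ ^ 2) 0 1 := by
      rw [← Polynomial.sum_sq_norm_coeff_eq_circleAverage, Finset.sum_subset hsupp]
      · apply Finset.sum_congr rfl
        intro k hk
        rw [hcoeff, if_pos hk]
      · intro k _ hk
        rw [Polynomial.notMem_support_iff] at hk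
        rw [hk]; simp
    rw [h1]
    have htail : 0 ≤ ∑' n, ‖c (n + L)‖ := tsum_nonneg fun n => norm_nonneg _
    apply Real.circleAverage_mono_on_of_le_circle
    · apply ContinuousOn.circleIntegrable zero_le_one
      exact (p.continuous.norm.pow 2).continuousOn
    · intro z hz
      rw [abs_one, mem_sphere_zero_iff_norm] at hz
      apply pow_le_pow_left₀ (norm_nonneg _)
      have hs : Summable fun n => c n * z ^ n := by
        apply Summable.of_norm
        simpa [norm_mul, norm_pow, hz] using hc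
      have h2 := hs.sum_add_tsum_nat_add L
      have h3 : p.eval z = ∑' n, c n * z ^ n - ∑' n, c (n + L) * z ^ (n + L) := by
        rw [heval, ← h2]
        ring
      have h4 : ‖∑' n, c (n + L) * z ^ (n + L)‖ ≤ ∑' n, ‖c (n + L)‖ := by
        have hs' : Summable fun n => ‖c (n + L) * z ^ (n + L)‖ := by
          simpa [norm_mul, norm_pow, hz] using (summable_nat_add_iff L).2 hc
        refine (norm_tsum_le_tsum_norm hs').trans (le_of_eq ?_)
        congr 1
        funext n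
        rw [norm_mul, norm_pow, hz, one_pow, mul_one]
      rw [h3]
      exact (norm_sub_le _ _).trans (add_le_add (h z hz) h4)
  have hlim : Tendsto (fun L : ℕ => (M + ∑' n, ‖c (n + L)‖) ^ 2) atTop (𝓝 ((M + 0) ^ 2)) :=
    (tendsto_const_nhds.add (tendsto_sum_nat_add fun n => ‖c n‖)).pow 2
  rw [add_zero] at hlim
  refine ge_of_tendsto hlim ?_
  filter_upwards [eventually_ge_atTop N] with L hL
  refine (Finset.sum_le_sum_of_subset_of_nonneg (range_subset_range.2 hL) fun _ _ _ => ?_).trans (key L)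
  positivity

/-- the mean square at height `y` -/
theorem mean_y {f : ℂ → ℂ} {a : ℕ → ℂ} (ha : Expansion f a) {C : ℝ}
    (hC : ∀ z : ℂ, 0 < z.im → z.im ^ ((3 : ℝ) / 4) * ‖f z‖ ≤ C) {y : ℝ} (hy : 0 < y) (N : ℕ) :
    ∑ n ∈ range N, (‖a n‖ * Real.exp (-(2 * Real.pi * n * y))) ^ 2 ≤ (C / y ^ ((3 : ℝ) / 4)) ^ 2 := by
  have hz0 : ∀ x : ℝ, (0 : ℝ) < ((x : ℂ) + y * Complex.I).im := by
    intro x
    simpa using hy
  have hnorm : ∀ n : ℕ, ‖a n * (Real.exp (-(2 * Real.pi * n * y)) : ℝ)‖ =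
      ‖a n‖ * Real.exp (-(2 * Real.pi * n * y)) := by
    intro n
    rw [norm_mul, Complex.norm_real, Real.norm_of_nonneg (Real.exp_pos _).le]
  have hfac : ∀ (x : ℝ) (n : ℕ), Complex.exp (2 * Real.pi * Complex.I * n * ((x : ℂ) + y * Complex.I)) =
      (Real.exp (-(2 * Real.pi * n * y)) : ℝ) * Complex.exp (2 * Real.pi * Complex.I * x) ^ n := by
    intro x n
    rw [← Complex.exp_nat_mul, Complex.ofReal_exp, ← Complex.exp_add]
    congr 1
    push_cast
    ring_nf
    rw [Complex.I_sq]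
    ring
  have hsum : Summable fun n => ‖a n * (Real.exp (-(2 * Real.pi * n * y)) : ℝ)‖ := by
    have h1 := (ha (((0 : ℝ) : ℂ) + y * Complex.I) (hz0 0)).summable.norm
    refine h1.congr fun n => ?_
    rw [hfac, norm_mul, norm_mul, norm_mul, norm_pow]
    simp
  have hmain := parseval_le (fun n => a n * (Real.exp (-(2 * Real.pi * n * y)) : ℝ)) hsum
    (C / y ^ ((3 : ℝ) / 4)) (by
      intro z hz
      obtain ⟨x, hx⟩ : ∃ x : ℝ, Complex.exp (2 * Real.pi * Complex.I * x) = z := by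
        refine ⟨Complex.arg z / (2 * Real.pi), ?_⟩
        have h1 : (2 * Real.pi * Complex.I * ((Complex.arg z / (2 * Real.pi) : ℝ) : ℂ)) =
            Complex.arg z * Complex.I := by
          have hpi : (Real.pi : ℂ) ≠ 0 := by exact_mod_cast Real.pi_ne_zero
          push_cast
          field_simp
        rw [h1]
        have h2 := Complex.norm_mul_exp_arg_mul_I z
        rwa [hz, Complex.ofReal_one, one_mul] at h2
      have h3 : ∑' n : ℕ, a n * (Real.exp (-(2 * Real.pi * n * y)) : ℝ) * z ^ n =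
          f ((x : ℂ) + y * Complex.I) := by
        rw [← (ha _ (hz0 x)).tsum_eq]
        congr 1
        funext n
        rw [hfac, hx, mul_assoc]
      rw [h3, le_div_iff₀ (Real.rpow_pos_of_pos hy _), mul_comm]
      have h4 := hC _ (hz0 x)
      simpa using h4) N
  refine le_trans (le_of_eq ?_) hmain
  refine Finset.sum_congr rfl fun n _ => ?_
  rw [hnorm]

/-- **The mean square**, uniform: `Σ_{n ≤ X} |a(n)|² ≤ e^(4π) C² X^(3/2)` if `y^(3/4) |f| ≤ C`. -/
theorem mean_square {f : ℂ → ℂ} {a : ℕ → ℂ} (ha : Expansion f a) {C : ℝ}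
    (hC : ∀ z : ℂ, 0 < z.im → z.im ^ ((3 : ℝ) / 4) * ‖f z‖ ≤ C) {X : ℕ} (hX : 1 ≤ X) :
    ∑ n ∈ range (X + 1), ‖a n‖ ^ 2 ≤ Real.exp (4 * Real.pi) * C ^ 2 * (X : ℝ) ^ ((3 : ℝ) / 2) := by
  have hX0 : (0 : ℝ) < X := by exact_mod_cast hX
  have h1 := mean_y ha hC (y := 1 / X) (by positivity) (X + 1)
  have h2 : (C / (1 / (X : ℝ)) ^ ((3 : ℝ) / 4)) ^ 2 = C ^ 2 * (X : ℝ) ^ ((3 : ℝ) / 2) := by
    rw [one_div, Real.inv_rpow hX0.le, div_inv_eq_mul, mul_pow, ← Real.rpow_natCast ((X : ℝ) ^ ((3 : ℝ) / 4)),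
      ← Real.rpow_mul hX0.le]
    norm_num
  rw [h2] at h1
  have h3 : Real.exp (-(4 * Real.pi)) * ∑ n ∈ range (X + 1), ‖a n‖ ^ 2 ≤ C ^ 2 * (X : ℝ) ^ ((3 : ℝ) / 2) := by
    refine le_trans ?_ h1
    rw [Finset.mul_sum]
    refine Finset.sum_le_sum fun n hn => ?_
    have hn' : (n : ℝ) ≤ X := by
      have := Finset.mem_range.1 hn
      exact_mod_cast Nat.lt_succ_iff.1 this
    have h4 : Real.exp (-(4 * Real.pi)) ≤ Real.exp (-(2 * Real.pi * n * (1 / X))) ^ 2 := by
      rw [← Real.exp_nat_mul, Real.exp_le_exp]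
      have h5 : (n : ℝ) * (1 / X) ≤ 1 := by
        rw [mul_one_div, div_le_one hX0]
        exact hn'
      have := Real.pi_pos
      push_cast
      nlinarith
    rw [mul_pow, mul_comm (‖a n‖ ^ 2)]
    exact mul_le_mul_of_nonneg_right h4 (by positivity)
  have h6 : ∑ n ∈ range (X + 1), ‖a n‖ ^ 2 =
      Real.exp (4 * Real.pi) * (Real.exp (-(4 * Real.pi)) * ∑ n ∈ range (X + 1), ‖a n‖ ^ 2) := by
    rw [← mul_assoc, ← Real.exp_add]
    simp
  rw [h6, mul_assoc]
  exact mul_le_mul_of_nonneg_left h3 (Real.exp_pos _).le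

end Run7.h151.WT
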